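import Pool.Agent.N708.MX.Asm
import Pool.Agent.N708.MX.Stm3
import Pool.Agent.N8.MX.PERM

/-!
# Project MX (helper708), part INF (helper364): the image of `K` is infinite
-/

set_option autoImplicit false

namespace Pool.Agent.N364.MX

open Filter Topology Pool.Agent.N708.MX
open Pool.Agent.N8.MX.PERM (PU Pm PU_val)

lemma opn_eq_zero {d : ℕ} {M : Matrix (Fin d) (Fin d) ℂ} (h : opn M = 0) : M = 0 := by
  unfold opn at h
  rw [norm_eq_zero] at h
  exact (map_eq_zero_iff _ (Matrix.toEuclideanCLM (𝕜 := ℂ) (n := Fin d)).injective).1 h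

lemma eq_one_of_Pm {Y : Type} [Fintype Y] [DecidableEq Y] {s : Equiv.Perm Y} (h : Pm s = 1) :
    s = 1 := by
  ext y
  have h1 := congrFun (congrFun h (Fintype.equivFin Y (s y))) (Fintype.equivFin Y y)
  unfold Pm at h1
  rw [Matrix.of_apply, Equiv.symm_apply_apply, Equiv.symm_apply_apply, if_pos rfl,
    Matrix.one_apply] at h1
  rw [Equiv.Perm.one_apply]
  by_contra hne
  rw [if_neg (fun h2 => hne ((Fintype.equivFin Y).injective h2))] at h1
  exact one_ne_zero h1

theorem t_inf (hM : S_MAIN) : S_INF := by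
  classical
  intro K G _ _ φ ι h k γ hPT hγ hD ha
  by_contra hinf
  rw [not_infinite_iff_finite] at hinf
  have hconj : ∀ n ∈ ι.range, h⁻¹ * n * h ∈ ι.range := by
    rintro n ⟨a, rfl⟩
    exact ⟨φ a, (hD.rel a).symm⟩
  let f : ι.range → ι.range := fun n => ⟨h⁻¹ * n.1 * h, hconj n.1 n.2⟩
  have hf : Function.Injective f := by
    intro m n hmn
    have h1 : h⁻¹ * m.1 * h = h⁻¹ * n.1 * h := congrArg Subtype.val hmn
    exact Subtype.ext (mul_left_cancel (mul_right_cancel h1))
  have hfs : Function.Surjective f := Finite.surjective_of_injective hf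
  have hh : h ∈ Subgroup.normalizer (ι.range : Set G) := by
    rw [Subgroup.mem_normalizer_iff]
    intro g
    constructor
    · intro hg
      obtain ⟨m, hm⟩ := hfs ⟨g, hg⟩
      have h1 : h⁻¹ * m.1 * h = g := congrArg Subtype.val hm
      have h2 : h * g * h⁻¹ = m.1 := by
        rw [← h1]
        group
      rw [h2]
      exact m.2
    · intro hg
      have h1 := hconj _ hg
      have h2 : h⁻¹ * (h * g * h⁻¹) * h = g := by group
      rwa [h2] at h1
  have hnorm : ι.range.Normal := by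
    rw [← Subgroup.normalizer_eq_top_iff, eq_top_iff, ← hD.gen, Subgroup.closure_le]
    rintro x (⟨a, rfl⟩ | hx)
    · exact Subgroup.le_normalizer ⟨a, rfl⟩
    · rw [Set.mem_singleton_iff] at hx
      rw [hx]
      exact hh
  have : Fintype ι.range := Fintype.ofFinite _
  let α : G →* Equiv.Perm ι.range := (MulAut.toPerm ι.range).comp MulAut.conjNormal
  have hAH : AH atTop (fun _ => Fintype.card ι.range)
      (fun _ g => (PU.comp α : G →* Matrix.unitaryGroup (Fin (Fintype.card ι.range)) ℂ) g) :=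
    AH_of_hom atTop (fun _ => Fintype.card ι.range) (fun _ => PU.comp α)
  have hcen : ∀ a : K, α (ι a) = 1 := by
    intro a
    have h1 := hM K G φ ι h k γ hPT hγ hD atTop _ _ hAH a
    have h2 := tendsto_nhds_unique tendsto_const_nhds h1
    have h3 := sub_eq_zero.1 (opn_eq_zero h2)
    exact eq_one_of_Pm h3
  have hcomm : ∀ a b : K, ι a * ι b * (ι a)⁻¹ = ι b := by
    intro a b
    have h1 : α (ι a) ⟨ι b, ⟨b, rfl⟩⟩ = ⟨ι b, ⟨b, rfl⟩⟩ := by rw [hcen]; rfl
    have h2 := congrArg Subtype.val h1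
    exact h2
  have hker : Subgroup.normalClosure {x : K | ∃ c k : K, (∀ a, c * φ a = φ a * c) ∧
      x = c * k * c⁻¹ * k⁻¹} ≤ ι.ker := by
    refine Subgroup.normalClosure_le_normal ?_
    rintro x ⟨c, b, _, rfl⟩
    change c * b * c⁻¹ * b⁻¹ ∈ ι.ker
    rw [MonoidHom.mem_ker, map_mul, map_mul, map_mul, map_inv, map_inv, hcomm, mul_inv_cancel]
  rw [hD.nc] at hker
  obtain ⟨a, ha⟩ := ha
  exact ha (MonoidHom.mem_ker.1 (hker (Subgroup.mem_top a)))

end Pool.Agent.N364.MX
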